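import Pool.Agent.T9h36.KU.K1b

/-!
# The case `k = 1`
-/

set_option autoImplicit false

namespace Pool.Agent.T9h36.KU

open MeasureTheory ProbabilityTheory Set Filter Topology Pool.Agent.R190.KR Pool.Agent.T9h72.KU
open scoped ENNReal

theorem G0_eq (n : ℕ) (x : ℝ) : G n 0 x = A x ^ n := by unfold G; simp

theorem measurable_A : Measurable A := by unfold A; fun_prop

theorem sfun1 (n : ℕ) (x : ℝ) : sfun 1 n x = K n 0 * S n 0 x := sfun_eq n 0 x

theorem recDens1 (n : ℕ) (x : ℝ) : recDens 1 n x = K n 0 * A x ^ n := by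
  rw [← G0_eq]; exact recDens_eq n 0 x

theorem rec_int (n : ℕ) : IntegrableOn (recDens 1 n) (Ioo (0 : ℝ) 1) := by
  have h : recDens 1 n = fun x => K n 0 * A x ^ n := funext (recDens1 n)
  rw [h]
  exact (integrable_A_pow n).const_mul _

theorem rec_sq (n : ℕ) : IntegrableOn (fun x => recDens 1 n x ^ 2) (Ioo (0 : ℝ) 1) := by
  have h : (fun x => recDens 1 n x ^ 2) = fun x => K n 0 ^ 2 * A x ^ (2 * n) := by
    funext x; rw [recDens1]; ring
  rw [h]
  exact (integrable_A_pow (2 * n)).const_mul _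

theorem rec_one (n : ℕ) : ∫ x in Ioo (0 : ℝ) 1, recDens 1 n x = 1 := by
  rw [← integral_Ioc_eq_integral_Ioo, ← intervalIntegral.integral_of_le zero_le_one]
  have hint : IntervalIntegrable (fun x => K n 0 * G n 0 x) volume 0 1 := by
    rw [intervalIntegrable_iff_integrableOn_Ioo_of_le zero_le_one]
    have := rec_int n
    have h : recDens 1 n = fun x => K n 0 * G n 0 x := funext fun x => recDens_eq n 0 x
    rwa [h] at this
  have h := intervalIntegral.integral_eq_sub_of_hasDerivAt_of_le (f := fun x => -T n 0 x)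
    (f' := fun x => K n 0 * G n 0 x) zero_le_one (continuousOn_T n 0).neg
    (fun x hx => by
      have := (hasDerivAt_T n 0 (x := x) (by linarith [hx.2])).fun_neg
      simpa using this) hint
  have h2 : ∀ x, recDens 1 n x = K n 0 * G n 0 x := fun x => recDens_eq n 0 x
  simp only [h2]
  rw [h, T_zero, T_one]
  ring

theorem measurable_sfun (n : ℕ) : Measurable (sfun 1 n) := by
  have h : sfun 1 n = fun x => K n 0 * S n 0 x := funext (sfun1 n)
  rw [h]
  exact (measurable_S n 0).const_mul _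

theorem sfun_odd (n : ℕ) (x : ℝ) : sfun 1 n (1 - x) = -sfun 1 n x := by
  rw [sfun1, sfun1, S_one_sub]; ring

theorem sfun_sq (n : ℕ) : IntegrableOn (fun x => sfun 1 n x ^ 2) (Ioo (0 : ℝ) 1) := by
  have h1 := rec_sq n
  have h2 := refl_int h1
  refine Integrable.mono' ((h1.add h2).const_mul 2) ((measurable_sfun n).pow_const 2).aestronglyMeasurable ?_
  refine Filter.Eventually.of_forall fun x => ?_
  rw [Real.norm_eq_abs, abs_of_nonneg (sq_nonneg _)]
  simp only [Pi.add_apply]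
  unfold sfun
  nlinarith [sq_nonneg (recDens 1 n x + recDens 1 n (1 - x))]

noncomputable def dd (n : ℕ) (x : ℝ) : ℝ := K n 0 * S1 n 0 x

theorem sfun_der (n : ℕ) {x : ℝ} (hx : x ∈ Ioo (0 : ℝ) 1) :
    HasDerivAt (sfun 1 n) (dd n x) x := by
  have h : sfun 1 n = fun x => K n 0 * S n 0 x := funext (sfun1 n)
  rw [h]
  exact (hasDerivAt_S n 0 hx.1 hx.2).const_mul _

theorem term_pos (n : ℕ) (hn : 1 ≤ n) {x : ℝ} (hx : x ∈ Ioo (0 : ℝ) 1) :
    0 < G n 0 x * psi n 0 x := by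
  have hA := A_pos hx.1 hx.2
  have h1 : 0 < 1 - x := by linarith [hx.2]
  have hn' : (0 : ℝ) < n := by exact_mod_cast hn
  unfold psi
  apply mul_pos (G_pos n 0 hx.1 hx.2)
  simp only [Nat.cast_zero, sub_zero]
  positivity

theorem refl_mem {x : ℝ} (hx : x ∈ Ioo (0 : ℝ) 1) : 1 - x ∈ Ioo (0 : ℝ) 1 :=
  ⟨by linarith [hx.2], by linarith [hx.1]⟩

theorem dd_pos (n : ℕ) (hn : 1 ≤ n) {x : ℝ} (hx : x ∈ Ioo (0 : ℝ) 1) : 0 < dd n x := by
  unfold dd S1
  exact mul_pos (K_pos n 0) (add_pos (term_pos n hn hx) (term_pos n hn (refl_mem hx)))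

theorem dd_sym (n : ℕ) (x : ℝ) : dd n (1 - x) = dd n x := by
  unfold dd S1
  rw [sub_sub_cancel]; ring

theorem measurable_psi (n : ℕ) : Measurable (psi n 0) := by
  unfold psi
  exact ((measurable_const.div measurable_A).sub_const _).div (by fun_prop)

theorem measurable_dd (n : ℕ) : Measurable (dd n) := by
  unfold dd S1
  have h1 : Measurable fun x => G n 0 x * psi n 0 x := (measurable_G n 0).mul (measurable_psi n)
  exact (h1.add (h1.comp (measurable_const.sub measurable_id : Measurable fun x : ℝ => 1 - x))).const_mul _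

theorem q_eq (n : ℕ) {x : ℝ} (hx : x ∈ Ioo (0 : ℝ) 1) :
    G (n + 1) 0 x * (psi (n + 1) 0 x ^ 2 + psi' (n + 1) 0 x) =
      (((n : ℝ) + 1) * n * (A x ^ n / A x) + (n + 1) * A x ^ n) * (1 / (1 - x)) ^ 2 := by
  have hA := A_pos hx.1 hx.2
  have h1 : 0 < 1 - x := by linarith [hx.2]
  rw [G0_eq]
  unfold psi psi'
  simp only [Nat.cast_zero, sub_zero]
  push_cast
  field_simp
  ring

theorem A_mono {x y : ℝ} (hxy : x ≤ y) (hy : y < 1) : A x ≤ A y := by
  unfold A
  have := Real.log_le_log (show 0 < 1 - y by linarith) (show 1 - y ≤ 1 - x by linarith)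
  linarith

theorem q_mono (n : ℕ) {x y : ℝ} (hx : x ∈ Ioo (0 : ℝ) 1) (hy : y ∈ Ioo (0 : ℝ) 1) (hxy : x ≤ y) :
    G (n + 1) 0 x * (psi (n + 1) 0 x ^ 2 + psi' (n + 1) 0 x) ≤
      G (n + 1) 0 y * (psi (n + 1) 0 y ^ 2 + psi' (n + 1) 0 y) := by
  rw [q_eq n hx, q_eq n hy]
  have hA := A_pos hx.1 hx.2
  have hAy := A_pos hy.1 hy.2
  have h1 : 0 < 1 - x := by linarith [hx.2]
  have h2 : 0 < 1 - y := by linarith [hy.2]
  have hm := A_mono hxy hy.2
  have h3 : 1 / (1 - x) ≤ 1 / (1 - y) := one_div_le_one_div_of_le h2 (by linarith)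
  have h4 : (n : ℝ) * (A x ^ n / A x) ≤ n * (A y ^ n / A y) := by
    rcases Nat.eq_zero_or_pos n with h | h
    · subst h; simp
    · obtain ⟨m, rfl⟩ : ∃ j, n = j + 1 := ⟨n - 1, by omega⟩
      rw [pow_succ, mul_div_cancel_right₀ _ hA.ne', pow_succ, mul_div_cancel_right₀ _ hAy.ne']
      gcongr
  have h5 : ((n : ℝ) + 1) * n * (A x ^ n / A x) + (n + 1) * A x ^ n ≤
      ((n : ℝ) + 1) * n * (A y ^ n / A y) + (n + 1) * A y ^ n := by
    have h6 : A x ^ n ≤ A y ^ n := pow_le_pow_left₀ hA.le hm n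
    have h7 : (0 : ℝ) ≤ (n : ℝ) + 1 := by positivity
    have h8 := mul_le_mul_of_nonneg_left h4 h7
    have h9 := mul_le_mul_of_nonneg_left h6 h7
    linarith
  exact mul_le_mul h5 (pow_le_pow_left₀ (by positivity) h3 2) (by positivity) (by positivity)

theorem dd_mono (n : ℕ) (hn : 1 ≤ n) : MonotoneOn (dd n) (Ico (1 / 2) 1) := by
  obtain ⟨n, rfl⟩ : ∃ j, n = j + 1 := ⟨n - 1, by omega⟩
  have hd : ∀ x ∈ Ioo (0 : ℝ) 1, HasDerivAt (dd (n + 1)) (K (n + 1) 0 * S2 (n + 1) 0 x) x :=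
    fun x hx => (hasDerivAt_S1 (n + 1) 0 hx.1 hx.2).const_mul _
  apply monotoneOn_of_deriv_nonneg (convex_Ico _ _)
  · intro x hx
    exact (hd x ⟨by linarith [hx.1], hx.2⟩).continuousAt.continuousWithinAt
  · intro x hx
    rw [interior_Ico] at hx
    exact (hd x ⟨by linarith [hx.1], hx.2⟩).differentiableAt.differentiableWithinAt
  · intro x hx
    rw [interior_Ico] at hx
    have hx' : x ∈ Ioo (0 : ℝ) 1 := ⟨by linarith [hx.1], hx.2⟩
    rw [(hd x hx').deriv]
    have := q_mono n (refl_mem hx') hx' (by linarith [hx.1])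
    unfold S2
    exact mul_nonneg (K_pos _ _).le (by linarith)

theorem sfun_mono (n : ℕ) (hn : 1 ≤ n) : StrictMonoOn (sfun 1 n) (Ioo 0 1) := by
  apply strictMonoOn_of_deriv_pos (convex_Ioo _ _)
  · intro x hx
    exact (sfun_der n hx).continuousAt.continuousWithinAt
  · intro x hx
    rw [interior_Ioo] at hx
    rw [(sfun_der n hx).deriv]
    exact dd_pos n hn hx

theorem sfun_large (n : ℕ) (hn : 1 ≤ n) (t : ℝ) : ∃ x ∈ Ioo (1 / 2 : ℝ) 1, t ≤ sfun 1 n x := by
  have hK := K_pos n 0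
  obtain ⟨y, hy⟩ : ∃ y : ℝ, y = |t| / K n 0 + 2 := ⟨_, rfl⟩
  have hy2 : 2 ≤ y := by rw [hy]; have : 0 ≤ |t| / K n 0 := by positivity
                         linarith
  have he : Real.exp (-y) < 1 / 2 := by
    have h1 : Real.exp (-y) ≤ Real.exp (-2) := Real.exp_le_exp.2 (by linarith)
    have h2 : Real.exp (-2) < 1 / 2 := by
      rw [Real.exp_neg, inv_eq_one_div, one_div_lt_one_div (by positivity) (by norm_num)]
      have := Real.add_one_lt_exp (show (2 : ℝ) ≠ 0 by norm_num)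
      linarith
    linarith
  have hep := Real.exp_pos (-y)
  refine ⟨1 - Real.exp (-y), ⟨by linarith, by linarith⟩, ?_⟩
  rw [sfun1]
  unfold S
  rw [G0_eq, G0_eq]
  have hA : A (1 - Real.exp (-y)) = y := by
    unfold A
    rw [sub_sub_cancel, Real.log_exp]; ring
  have hA2 : A (1 - (1 - Real.exp (-y))) ≤ 1 := by
    rw [sub_sub_cancel]
    have h1 := A_mono he.le (by norm_num)
    rw [A_half] at h1
    have := Real.log_two_lt_d9
    linarith
  have hA3 : 0 ≤ A (1 - (1 - Real.exp (-y))) := by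
    rw [sub_sub_cancel]
    exact A_nonneg hep.le (by linarith)
  rw [hA]
  have h1 : A (1 - (1 - Real.exp (-y))) ^ n ≤ 1 := pow_le_one₀ hA3 hA2
  have h2 : y ≤ y ^ n := le_self_pow₀ (by linarith) (by omega)
  have h3 : |t| / K n 0 + 1 ≤ y ^ n - A (1 - (1 - Real.exp (-y))) ^ n := by linarith
  have h4 := mul_le_mul_of_nonneg_left h3 hK.le
  have h5 : K n 0 * (|t| / K n 0 + 1) = |t| + K n 0 := by field_simp
  have := le_abs_self t
  linarith

theorem sfun_surj (n : ℕ) (hn : 1 ≤ n) : sfun 1 n '' Ioo 0 1 = univ := by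
  rw [eq_univ_iff_forall]
  intro t
  obtain ⟨x, hx, hxt⟩ := sfun_large n hn t
  obtain ⟨y, hy, hyt⟩ := sfun_large n hn (-t)
  have hcont : ContinuousOn (sfun 1 n) (Icc (1 - y) x) := by
    intro z hz
    exact (sfun_der n ⟨by linarith [hz.1, hy.2], by linarith [hz.2, hx.2]⟩).continuousAt.continuousWithinAt
  have h := intermediate_value_Icc (by linarith [hx.1, hy.1]) hcont
  obtain ⟨z, hz, hzt⟩ := h (show t ∈ Icc (sfun 1 n (1 - y)) (sfun 1 n x) by
    rw [sfun_odd]
    exact ⟨by linarith, hxt⟩)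
  exact ⟨z, ⟨by linarith [hz.1, hy.2], by linarith [hz.2, hx.2]⟩, hzt⟩

theorem half_int (n : ℕ) : IntervalIntegrable (fun x => sfun 1 n x ^ 2) volume (1 / 2) 1 := by
  rw [intervalIntegrable_iff_integrableOn_Ioo_of_le (by norm_num)]
  exact (sfun_sq n).mono_set (Ioo_subset_Ioo (by norm_num) le_rfl)

theorem full_half (n : ℕ) :
    ∫ x in Ioo (0 : ℝ) 1, sfun 1 n x ^ 2 = 2 * ∫ x in (1 / 2 : ℝ)..1, sfun 1 n x ^ 2 := by
  apply even_integral
  · intro x _
    rw [sfun_odd]; ring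
  · intro a b h0 h1 h2
    rw [intervalIntegrable_iff_integrableOn_Ioo_of_le h1]
    exact (sfun_sq n).mono_set (Ioo_subset_Ioo h0 h2)

/-- the value is attained -/
theorem kone_mem (n : ℕ) (hn : 1 ≤ n) :
    Real.sqrt (1 / 2 * ∫ x in (1 / 2 : ℝ)..1, sfun 1 n x ^ 2) ∈ stdMeansU 1 n := by
  have hfull := full_half n
  obtain ⟨V, hVdef⟩ : ∃ V, V = ∫ x in Ioo (0 : ℝ) 1, sfun 1 n x ^ 2 := ⟨_, rfl⟩
  have hval : Real.sqrt (1 / 2 * ∫ x in (1 / 2 : ℝ)..1, sfun 1 n x ^ 2) = 1 / 2 * Real.sqrt V := by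
    have h1 : 1 / 2 * ∫ x in (1 / 2 : ℝ)..1, sfun 1 n x ^ 2 = (1 / 2) ^ 2 * V := by
      rw [hVdef, hfull]; ring
    rw [h1, Real.sqrt_mul (sq_nonneg _), Real.sqrt_sq (by norm_num)]
  rw [hval]
  have hU := uniParent_map (measurable_sfun n) (measurable_dd n) (sfun_mono n hn) (sfun_sq n)
    (fun x _ => sfun_odd n x) (fun x hx => sfun_der n hx) (fun x hx => dd_pos n hn hx)
    (sfun_surj n hn) (dd_mono n hn) (fun x _ => dd_sym n x)
  refine ⟨_, hU, ?_⟩
  rw [mean_map (measurable_sfun n) (fun x _ => sfun_odd n x),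
    sd_map (measurable_sfun n) (fun x _ => sfun_odd n x)]
  unfold recMean
  rw [intervalIntegral.integral_of_le zero_le_one, integral_Ioc_eq_integral_Ioo,
    quantile_map_integral (measurable_sfun n) (sfun_mono n hn) (measurable_recDens n 1),
    sub_zero, integral_odd_mul (measurable_sfun n) (fun x _ => sfun_odd n x)
      (measurable_recDens n 1) ?_]
  · have h2 : ∀ x, sfun 1 n x * (recDens 1 n x - recDens 1 n (1 - x)) = sfun 1 n x ^ 2 := by
      intro x
      rw [show recDens 1 n x - recDens 1 n (1 - x) = sfun 1 n x from rfl]; ring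
    simp only [h2]
    rw [← hVdef, mul_div_assoc, Real.div_sqrt]
  · refine Integrable.mono' ((sfun_sq n).add (rec_sq n))
      ((measurable_sfun n).mul (measurable_recDens n 1)).aestronglyMeasurable ?_
    refine Filter.Eventually.of_forall fun x => ?_
    simp only [Pi.add_apply, Real.norm_eq_abs, abs_mul]
    have h1 := sq_nonneg (|sfun 1 n x| - |recDens 1 n x|)
    have h2 := sq_abs (sfun 1 n x)
    have h3 := sq_abs (recDens 1 n x)
    have h4 := mul_nonneg (abs_nonneg (sfun 1 n x)) (abs_nonneg (recDens 1 n x))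
    nlinarith

theorem kone : S_KONE := by
  intro n hn
  refine ⟨half_int n, ?_, fun b hb => hb (kone_mem n hn)⟩
  have hV := sq_pos' (sfun_mono n hn) (sfun_sq n) (fun x _ => sfun_odd n x)
  have hfull := full_half n
  obtain ⟨V, hVdef⟩ : ∃ V, V = ∫ x in Ioo (0 : ℝ) 1, sfun 1 n x ^ 2 := ⟨_, rfl⟩
  have hval : Real.sqrt (1 / 2 * ∫ x in (1 / 2 : ℝ)..1, sfun 1 n x ^ 2) = 1 / 2 * Real.sqrt V := by
    have h1 : 1 / 2 * ∫ x in (1 / 2 : ℝ)..1, sfun 1 n x ^ 2 = (1 / 2) ^ 2 * V := by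
      rw [hVdef, hfull]; ring
    rw [h1, Real.sqrt_mul (sq_nonneg _), Real.sqrt_sq (by norm_num)]
  rw [hval]
  rw [← hVdef] at hV
  rintro r ⟨μ, h, rfl⟩
  have hS := h.sym
  rw [div_le_iff₀ hS.pos]
  unfold recMean
  rw [intervalIntegral.integral_of_le zero_le_one, integral_Ioc_eq_integral_Ioo,
    id_mul' hS (measurable_recDens n 1) (rec_sq n) (rec_int n) (rec_one n)]
  have h1 := cs' hS (measurable_sfun n) (sfun_sq n) hV hVdef.symm
  unfold sfun at h1
  linarith

end Pool.Agent.T9h36.KU
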