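import Pool.Agent.T9h72.KU.Spec

/-!
# Unbounded versions of the lemmas of R190.KR (for `k = 1`)
-/

set_option autoImplicit false

namespace Pool.Agent.T9h36.KU

open MeasureTheory ProbabilityTheory Set Filter Topology Pool.Agent.R190.KR
open scoped ENNReal

theorem refl_int {g : ℝ → ℝ} (hi : IntegrableOn g (Ioo (0 : ℝ) 1)) :
    IntegrableOn (fun x => g (1 - x)) (Ioo (0 : ℝ) 1) := by
  have h6 : Integrable g ((volume.restrict (Ioo (0 : ℝ) 1)).map (fun x => 1 - x)) := by
    rw [map_reflect_unif]; exact hi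
  exact h6.comp_measurable (by fun_prop)

theorem integrable_A_pow (p : ℕ) : IntegrableOn (fun x => A x ^ p) (Ioo (0 : ℝ) 1) := by
  have h1 : IntervalIntegrable (fun x : ℝ => (1 - x) ^ (-(1 / 2) : ℝ)) volume 0 1 := by
    have := (intervalIntegral.intervalIntegrable_rpow' (a := (1 : ℝ)) (b := 0) (r := -(1 / 2))
      (by norm_num)).comp_sub_left 1
    simpa using this
  have h2 : IntegrableOn (fun x : ℝ => (2 ^ p * p.factorial : ℝ) * (1 - x) ^ (-(1 / 2) : ℝ))
      (Ioo 0 1) := by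
    rw [intervalIntegrable_iff_integrableOn_Ioo_of_le zero_le_one] at h1
    exact h1.const_mul _
  have hm : Measurable fun x => A x ^ p := by unfold A; fun_prop
  refine Integrable.mono' h2 hm.aestronglyMeasurable ?_
  filter_upwards [ae_restrict_mem measurableSet_Ioo] with x hx
  have hy : 0 < 1 - x := by linarith [hx.2]
  have hA := A_nonneg hx.1.le hx.2
  rw [Real.norm_eq_abs, abs_of_nonneg (by positivity)]
  have h3 := A_pow_bound p hx.1.le hx.2.le
  have h4 : Real.sqrt (1 - x) = (1 - x) ^ (-(1 / 2) : ℝ) * (1 - x) := by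
    rw [Real.sqrt_eq_rpow]
    nth_rewrite 3 [← Real.rpow_one (1 - x)]
    rw [← Real.rpow_add hy]
    norm_num
  rw [h4, ← mul_assoc] at h3
  exact le_of_mul_le_mul_right h3 hy

section
variable {μ : Measure ℝ}

theorem int_comp' (h : SymParent μ) {g : ℝ → ℝ} 
    (hi : IntegrableOn g (Ioo 0 1)) : Integrable (fun t => g (cdf μ t)) μ := by
  have := h.prob
  have h1 : Integrable g (μ.map (cdf μ)) := by rw [map_cdf h.cont]; exact hi
  exact h1.comp_measurable h.cont.measurable

theorem int_mul' (h : SymParent μ) {g : ℝ → ℝ} (hg : Measurable g)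
    (hi : IntegrableOn (fun x => g x ^ 2) (Ioo 0 1)) :
    Integrable (fun t : ℝ => (t - mean μ) * g (cdf μ t)) μ := by
  have := h.prob
  refine Integrable.mono' (h.int_sq.add (int_comp' h hi))
    ((measurable_id.sub_const _).mul (hg.comp h.cont.measurable)).aestronglyMeasurable ?_
  refine Filter.Eventually.of_forall fun t => ?_
  simp only [Pi.add_apply, Real.norm_eq_abs, abs_mul, id_eq]
  have h1 := sq_nonneg (|t - mean μ| - |g (cdf μ t)|)
  have h2 := sq_abs (t - mean μ)
  have h3 := sq_abs (g (cdf μ t))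
  have h4 := mul_nonneg (abs_nonneg (t - mean μ)) (abs_nonneg (g (cdf μ t)))
  nlinarith

/-- Cauchy-Schwarz -/
theorem cs' (h : SymParent μ) {g : ℝ → ℝ} (hg : Measurable g)
    (hi : IntegrableOn (fun x => g x ^ 2) (Ioo 0 1)) {V : ℝ} (hV : 0 < V)
    (hV' : ∫ x in Ioo (0 : ℝ) 1, g x ^ 2 = V) :
    ∫ t, (t - mean μ) * g (cdf μ t) ∂μ ≤ sd μ * Real.sqrt V := by
  have := h.prob
  have hs := h.pos
  have hs2 : ∫ t, (t - mean μ) ^ 2 ∂μ = sd μ ^ 2 := by
    unfold sd
    rw [Real.sq_sqrt (integral_nonneg fun t => sq_nonneg _)]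
  have ht : 0 < Real.sqrt V := Real.sqrt_pos.2 hV
  have ht2 : Real.sqrt V ^ 2 = V := Real.sq_sqrt hV.le
  generalize sd μ = σ at *
  generalize Real.sqrt V = τ at *
  have hg2 : Measurable fun x => g x ^ 2 := hg.pow_const 2
  have i1 := int_comp' h hi
  have hpt : ∀ t, (t - mean μ) * g (cdf μ t) ≤
      τ / (2 * σ) * (t - mean μ) ^ 2 + σ / (2 * τ) * g (cdf μ t) ^ 2 := by
    intro t
    have h1 : τ / (2 * σ) * (t - mean μ) ^ 2 + σ / (2 * τ) * g (cdf μ t) ^ 2 -
        (t - mean μ) * g (cdf μ t) =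
        (τ * (t - mean μ) - σ * g (cdf μ t)) ^ 2 / (2 * σ * τ) := by
      field_simp
      ring
    have h2 : 0 ≤ (τ * (t - mean μ) - σ * g (cdf μ t)) ^ 2 / (2 * σ * τ) := by positivity
    linarith
  have h4 := integral_mono (int_mul' h hg hi)
    ((h.int_sq.const_mul (τ / (2 * σ))).add (i1.const_mul (σ / (2 * τ)))) hpt
  refine h4.trans ?_
  have h5 : ∫ t, (τ / (2 * σ) * (t - mean μ) ^ 2 + σ / (2 * τ) * g (cdf μ t) ^ 2) ∂μ =
      τ / (2 * σ) * σ ^ 2 + σ / (2 * τ) * τ ^ 2 := by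
    rw [integral_add (h.int_sq.const_mul _) (i1.const_mul _), integral_const_mul,
      integral_const_mul, hs2, integral_comp_cdf h.cont hg2, hV', ht2]
  have h6 : τ / (2 * σ) * σ ^ 2 + σ / (2 * τ) * τ ^ 2 = σ * τ := by
    field_simp
    norm_num
  exact le_of_eq (h5.trans h6)

theorem antisymm' (h : SymParent μ) {g : ℝ → ℝ} (hg : Measurable g)
    (hi : IntegrableOn (fun x => g x ^ 2) (Ioo 0 1)) :
    ∫ t, (t - mean μ) * g (cdf μ t) ∂μ =
      1 / 2 * ∫ t, (t - mean μ) * (g (cdf μ t) - g (1 - cdf μ t)) ∂μ := by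
  have := h.prob
  have h1 := h.integral_reflect hg
  have i1 := int_mul' h hg hi
  have i2 := int_mul' h (g := fun x => g (1 - x)) (hg.comp (by fun_prop)) (refl_int hi)
  have h2 : ∫ t, (t - mean μ) * (g (cdf μ t) - g (1 - cdf μ t)) ∂μ =
      (∫ t, (t - mean μ) * g (cdf μ t) ∂μ) - ∫ t, (t - mean μ) * g (1 - cdf μ t) ∂μ := by
    rw [← integral_sub i1 i2]
    congr 1
    funext t
    ring
  rw [h2]
  rw [integral_neg] at h1
  linarith

theorem id_mul' (h : SymParent μ) {g : ℝ → ℝ} (hg : Measurable g)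
    (hi : IntegrableOn (fun x => g x ^ 2) (Ioo 0 1)) (hi' : IntegrableOn g (Ioo 0 1))
    (h1 : ∫ x in Ioo (0 : ℝ) 1, g x = 1) :
    (∫ x in Ioo (0 : ℝ) 1, quantile μ x * g x) - mean μ =
      1 / 2 * ∫ t, (t - mean μ) * (g (cdf μ t) - g (1 - cdf μ t)) ∂μ := by
  have := h.prob
  rw [← antisymm' h hg hi, integral_quantile h.cont hg]
  have h2 : ∫ t, t * g (cdf μ t) ∂μ =
      (∫ t, (t - mean μ) * g (cdf μ t) ∂μ) + ∫ t, mean μ * g (cdf μ t) ∂μ := by
    rw [← integral_add (int_mul' h hg hi) ((int_comp' h hi').const_mul _)]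
    congr 1
    funext t
    ring
  rw [h2, integral_const_mul, integral_comp_cdf h.cont hg, h1]
  ring

end

section
variable {g : ℝ → ℝ} (hgm : Measurable g) (hmono : StrictMonoOn g (Ioo 0 1))
  (hi : IntegrableOn (fun x => g x ^ 2) (Ioo 0 1)) (hodd : ∀ x ∈ Ioo (0 : ℝ) 1, g (1 - x) = -g x)

include hmono hi hodd in
theorem sq_pos' : 0 < ∫ x in Ioo (0 : ℝ) 1, g x ^ 2 := by
  rw [integral_pos_iff_support_of_nonneg (fun x => sq_nonneg _) hi]
  have hhalf : g (1 / 2) = 0 := by
    have := hodd (1 / 2) ⟨by norm_num, by norm_num⟩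
    norm_num at this
    linarith
  have hsub : Ioo (1 / 2 : ℝ) 1 ⊆ Function.support (fun x => g x ^ 2) := by
    intro x hx
    have h1 : g (1 / 2) < g x := hmono ⟨by norm_num, by norm_num⟩ ⟨by linarith [hx.1], hx.2⟩ hx.1
    rw [hhalf] at h1
    simp only [Function.mem_support]
    positivity
  refine lt_of_lt_of_le ?_ (measure_mono hsub)
  rw [Measure.restrict_apply' measurableSet_Ioo]
  have : Ioo (1 / 2 : ℝ) 1 ∩ Ioo 0 1 = Ioo (1 / 2) 1 := by
    apply inter_eq_left.2
    exact Ioo_subset_Ioo (by norm_num) le_rfl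
  rw [this, Real.volume_Ioo]
  norm_num

include hgm hmono hi hodd in
theorem symParent_map' : SymParent ((volume.restrict (Ioo (0 : ℝ) 1)).map g) where
  prob := prob_map hgm
  cont := cont_map hgm hmono
  sq := by
    rw [memLp_map_measure_iff (by fun_prop) hgm.aemeasurable,
      memLp_two_iff_integrable_sq (by simpa using hgm.aestronglyMeasurable)]
    exact hi
  pos := by
    rw [sd_map hgm hodd]
    exact Real.sqrt_pos.2 (sq_pos' hmono hi hodd)
  symm := by
    rw [mean_map hgm hodd, Measure.map_map (by fun_prop) hgm]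
    have h1 : ((fun t => 2 * (0 : ℝ) - t) ∘ g) =ᵐ[volume.restrict (Ioo (0 : ℝ) 1)]
        (g ∘ fun x => 1 - x) := by
      filter_upwards [ae_restrict_mem measurableSet_Ioo] with x hx
      simp only [Function.comp_apply]
      rw [hodd x hx]; ring
    rw [Measure.map_congr h1, ← Measure.map_map hgm (by fun_prop), map_reflect_unif]

end

end Pool.Agent.T9h36.KU
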