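import Pool.Agent.T9h36.KU.K1a

/-!
# The law of `g(U)` for a bijection `g` from `(0,1)` onto the line
-/

set_option autoImplicit false

namespace Pool.Agent.T9h36.KU

open MeasureTheory ProbabilityTheory Set Filter Topology Pool.Agent.R190.KR Pool.Agent.T9h72.KU
open scoped ENNReal

section
variable {g d : ℝ → ℝ} (hgm : Measurable g) (hdm : Measurable d)
  (hmono : StrictMonoOn g (Ioo 0 1))
  (hi : IntegrableOn (fun x => g x ^ 2) (Ioo 0 1)) (hodd : ∀ x ∈ Ioo (0 : ℝ) 1, g (1 - x) = -g x)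
  (hder : ∀ x ∈ Ioo (0 : ℝ) 1, HasDerivAt g (d x) x) (hpos : ∀ x ∈ Ioo (0 : ℝ) 1, 0 < d x)
  (hsurj : g '' Ioo 0 1 = univ)

include hgm hmono hder hpos hsurj in
theorem law_density : (volume.restrict (Ioo (0 : ℝ) 1)).map g =
    volume.withDensity (fun t => ENNReal.ofReal
      (1 / d (cdf ((volume.restrict (Ioo (0 : ℝ) 1)).map g) t))) := by
  have := prob_map hgm
  have hc := cont_map hgm hmono
  ext E hE
  rw [withDensity_apply _ hE, Measure.map_apply hgm hE, ← lintegral_indicator hE,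
    ← setLIntegral_univ, ← hsurj,
    lintegral_image_eq_lintegral_abs_deriv_mul measurableSet_Ioo
      (fun x hx => (hder x hx).hasDerivWithinAt) hmono.injOn]
  have h1 : (volume.restrict (Ioo (0 : ℝ) 1)) (g ⁻¹' E) =
      ∫⁻ x in Ioo (0 : ℝ) 1, (g ⁻¹' E).indicator 1 x := by
    rw [lintegral_indicator_one (hgm hE)]
  rw [h1]
  apply setLIntegral_congr_fun measurableSet_Ioo
  intro x hx
  dsimp only
  have hd := hpos x hx
  by_cases hxE : g x ∈ E
  · rw [indicator_of_mem (show x ∈ g ⁻¹' E from hxE), indicator_of_mem hxE,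
      cdf_map_apply hgm hmono hx, abs_of_pos hd, ← ENNReal.ofReal_mul hd.le,
      mul_one_div_cancel hd.ne']
    simp
  · rw [indicator_of_notMem (show x ∉ g ⁻¹' E from hxE), indicator_of_notMem hxE, mul_zero]

include hgm hdm hmono hi hodd hder hpos hsurj in
theorem uniParent_map (hanti : MonotoneOn d (Ico (1 / 2) 1))
    (hsym : ∀ x ∈ Ioo (0 : ℝ) 1, d (1 - x) = d x) :
    UniParent ((volume.restrict (Ioo (0 : ℝ) 1)).map g) := by
  have := prob_map hgm
  have hc := cont_map hgm hmono
  have hS := symParent_map' hgm hmono hi hodd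
  have hmean := mean_map hgm hodd
  have hF : ∀ t, cdf ((volume.restrict (Ioo (0 : ℝ) 1)).map g) t ∈ Ioo (0 : ℝ) 1 := by
    intro t
    have ht : t ∈ g '' Ioo 0 1 := by rw [hsurj]; trivial
    obtain ⟨x, hx, rfl⟩ := ht
    rw [cdf_map_apply hgm hmono hx]
    exact hx
  have hF0 := hS.cdf_mean
  rw [hmean] at hF0
  refine ⟨hS, _, ?_, law_density hgm hmono hder hpos hsurj, ?_, ?_⟩
  · exact (measurable_const.div (hdm.comp hc.measurable)).ennreal_ofReal
  · rw [hmean]
    intro s hs t ht hst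
    apply ENNReal.ofReal_le_ofReal
    have h1 := monotone_cdf ((volume.restrict (Ioo (0 : ℝ) 1)).map g) hst
    have h2 := monotone_cdf ((volume.restrict (Ioo (0 : ℝ) 1)).map g) (le_of_lt ht)
    rw [hF0] at h2
    have h3 := hF s
    have h4 := hF t
    generalize cdf ((volume.restrict (Ioo (0 : ℝ) 1)).map g) s = a at *
    generalize cdf ((volume.restrict (Ioo (0 : ℝ) 1)).map g) t = b at *
    apply one_div_le_one_div_of_le (hpos b h4)
    rw [← hsym a h3, ← hsym b h4]
    exact hanti ⟨by linarith, by linarith [h4.1]⟩ ⟨by linarith, by linarith [h3.1]⟩ (by linarith)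
  · rw [hmean]
    intro s hs t ht hst
    apply ENNReal.ofReal_le_ofReal
    have h1 := monotone_cdf ((volume.restrict (Ioo (0 : ℝ) 1)).map g) hst
    have h2 := monotone_cdf ((volume.restrict (Ioo (0 : ℝ) 1)).map g) (le_of_lt hs)
    rw [hF0] at h2
    have h3 := hF s
    have h4 := hF t
    generalize cdf ((volume.restrict (Ioo (0 : ℝ) 1)).map g) s = a at *
    generalize cdf ((volume.restrict (Ioo (0 : ℝ) 1)).map g) t = b at *
    apply one_div_le_one_div_of_le (hpos a h3)
    exact hanti ⟨by linarith, h3.2⟩ ⟨by linarith, h4.2⟩ h1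

end

end Pool.Agent.T9h36.KU
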